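import Pool.Agent.Helper513.ZgT0.Assembly

set_option autoImplicit false

open Pool.Agent.Helper513.ZgT0

namespace Pool.Agent.Results.MP_08e64a_al.NotHomeomorphic

/-- There is a ring `R` for which the Kolmogorov quotients of the right and of the left Ziegler
spectrum are not homeomorphic. -/
theorem result : ∃ (R : Type) (_ : Ring R),
    IsEmpty (SeparationQuotient (RightZg R) ≃ₜ SeparationQuotient (LeftZg R)) := by
  obtain ⟨W, _, _, 𝔅, I, hS, hHit, hI, hN, hClo, hne⟩ := exists_sys
  refine ⟨RR hS, inferInstance, main_of (RR hS) (RR_regular hS) (RR_left hS) ?_⟩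
  intro U _ _ hun hf
  exact no_right hS hHit hI hN hClo U hun hf

end Pool.Agent.Results.MP_08e64a_al.NotHomeomorphic
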